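import Pool.Agent.helper38.OB.Spec

/-!
# GOO: good sets exist (union of the events)
-/

namespace Pool.Agent.OB

open Finset

theorem GOO_memInj {j : ℕ} {V : Finset ℕ} {x : Fin j → ℕ} :
    x ∈ Inj j V ↔ (∀ i, x i ∈ V) ∧ Function.Injective x := by
  classical
  unfold Inj
  rw [Finset.mem_filter, Fintype.mem_piFinset]

theorem GOO_memRQ {j : ℕ} {c : Fin j → ℤ} {P : ℤ → Prop} {V : Finset ℕ} {x : Fin j → ℕ} :
    x ∈ RQ c P V ↔ x ∈ Inj j V ∧ P (lf c x) := by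
  classical
  unfold RQ
  rw [Finset.mem_filter]

theorem GOO_lf (hBAS : BAS_stmt) {h : ℕ} (h3 : 3 ≤ h) {l0 L : ℕ} {A : Finset ℕ} (hA : A ⊆ U h l0 L)
    {j : ℕ} (hj : j ≤ h) {c : Fin j → ℤ} (hc : ∀ i, |c i| ≤ h) {x : Fin j → ℕ} (hx : x ∈ Inj j A) :
    |lf c x| ≤ ((h * h * Bs h ^ (L + 1) : ℕ) : ℤ) := by
  have hB : 1 ≤ Bs h := Nat.one_le_iff_ne_zero.2 (by unfold Bs be C0; positivity)
  have hx1 : ∀ i, ((x i : ℕ) : ℤ) ≤ ((Bs h ^ (L + 1) : ℕ) : ℤ) := by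
    intro i
    have h1 := hA ((GOO_memInj.1 hx).1 i)
    unfold U at h1
    rw [Finset.mem_biUnion] at h1
    obtain ⟨l, hl, hxl⟩ := h1
    have h2 := ((hBAS h h3 l).1 _ hxl).2.2
    have h4 : Bs h ^ (l + 1) ≤ Bs h ^ (L + 1) :=
      Nat.pow_le_pow_right hB (by have := (Finset.mem_Icc.1 hl).2; omega)
    have h5 : x i ≤ 2 * h * x i := Nat.le_mul_of_pos_left _ (by omega)
    exact_mod_cast (by omega : x i ≤ Bs h ^ (L + 1))
  unfold lf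
  calc |∑ i, c i * (x i : ℤ)| ≤ ∑ i, |c i * (x i : ℤ)| := Finset.abs_sum_le_sum_abs _ _
    _ ≤ ∑ _i : Fin j, ((h : ℤ) * ((Bs h ^ (L + 1) : ℕ) : ℤ)) := by
        refine Finset.sum_le_sum fun i _ => ?_
        rw [abs_mul, abs_of_nonneg (by positivity : (0 : ℤ) ≤ (x i : ℤ))]
        exact mul_le_mul (hc i) (hx1 i) (by positivity) (by positivity)
    _ = (j : ℤ) * ((h : ℤ) * ((Bs h ^ (L + 1) : ℕ) : ℤ)) := by
        rw [Finset.sum_const, Finset.card_univ, Fintype.card_fin, nsmul_eq_mul]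
    _ ≤ (h : ℤ) * ((h : ℤ) * ((Bs h ^ (L + 1) : ℕ) : ℤ)) := by
        refine mul_le_mul_of_nonneg_right (by exact_mod_cast hj) (by positivity)
    _ = ((h * h * Bs h ^ (L + 1) : ℕ) : ℤ) := by push_cast; ring

theorem GOO_noDisj {j : ℕ} {A : Finset ℕ} {c : Fin j → ℤ} {n : ℤ} {s N : ℕ} (hs : 1 ≤ s)
    (hb : ∀ x ∈ Inj j A, |lf c x| ≤ (N : ℤ)) (hn : n ∉ Finset.Icc (-(N : ℤ)) N) : NoDisj A c n s := by
  rintro ⟨G, hG, hcard, -⟩
  have hne : G.Nonempty := Finset.card_pos.1 (by omega)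
  obtain ⟨x, hx⟩ := hne
  have h1 := GOO_memRQ.1 (hG hx)
  have h2 := hb x h1.1
  rw [h1.2, abs_le] at h2
  exact hn (Finset.mem_Icc.2 h2)

theorem GOO_RN {j : ℕ} {A : Finset ℕ} {c : Fin j → ℤ} {N M M' : ℕ}
    (hb : ∀ x ∈ Inj j A, |lf c x| ≤ (N : ℤ)) (hM : N ≤ M) (hM' : N ≤ M') :
    RN c 0 M A = RN c 0 M' A := by
  ext x
  unfold RN
  rw [GOO_memRQ, GOO_memRQ]
  constructor
  · rintro ⟨h1, -⟩
    refine ⟨h1, ?_⟩
    rw [zero_add]
    exact (hb x h1).trans (by exact_mod_cast hM')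
  · rintro ⟨h1, -⟩
    refine ⟨h1, ?_⟩
    rw [zero_add]
    exact (hb x h1).trans (by exact_mod_cast hM)

theorem GOO (hBAS : BAS_stmt) (hWTS : WTS_stmt) (hPRA : PRA_stmt) (hPRB : PRB_stmt) (hGA : GA_stmt)
    (hGB : GB_stmt) (hGC : GC_stmt) (hGD : GD_stmt) (hGE : GE_stmt) (hGF : GF_stmt) : GOO_stmt := by
  classical
  intro h ho h3
  obtain ⟨C, hC, HD⟩ := hGD h ho h3
  set CC : Finset (Σ j : ℕ, (Fin j → ℤ)) := (Finset.Ico 1 h).sigma fun j =>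
    (Fintype.piFinset fun _ : Fin j => Finset.Icc (-(h : ℤ)) h).filter fun c => Cf h c with hCC
  set EE : Finset (Fin h → ℤ) := Fintype.piFinset fun _ => ({1, -1} : Finset ℤ) with hEE
  have memCC : ∀ (j : ℕ) (c : Fin j → ℤ), 1 ≤ j → j < h → Cf h c →
      (⟨j, c⟩ : Σ j : ℕ, (Fin j → ℤ)) ∈ CC := by
    intro j c h1 h2 h3
    rw [hCC, Finset.mem_sigma]
    refine ⟨Finset.mem_Ico.2 ⟨h1, h2⟩, ?_⟩
    rw [Finset.mem_filter, Fintype.mem_piFinset]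
    exact ⟨fun i => Finset.mem_Icc.2 (abs_le.1 (h3 i).2), h3⟩
  have CCmem : ∀ p ∈ CC, 1 ≤ p.1 ∧ p.1 < h ∧ Cf h p.2 := by
    intro p hp
    rw [hCC, Finset.mem_sigma] at hp
    have h1 := Finset.mem_Ico.1 hp.1
    exact ⟨h1.1, h1.2, (Finset.mem_filter.1 hp.2).2⟩
  have memEE : ∀ e : Fin h → ℤ, e ∈ EE ↔ Sg e := by
    intro e
    rw [hEE, Fintype.mem_piFinset]
    unfold Sg
    simp
  set M : ℝ := 1 + 3 * CC.card + 3 * EE.card with hM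
  have hM0 : 0 < M := by positivity
  set δ : ℝ := 1 / (2 * M) with hδ'
  have hδ : 0 < δ := by positivity
  have hMδ : M * δ = 1 / 2 := by
    rw [hδ']
    field_simp
  obtain ⟨K, hK, HC⟩ := hGC h ho h3 δ hδ
  refine ⟨C, K, hC, hK, fun κ k0 k1 => ?_⟩
  obtain ⟨JD, HD'⟩ := HD κ δ k0 k1 hδ
  obtain ⟨JE, HE⟩ := hGE h h3 κ δ k0 k1 hδ
  set J0 := max JD JE with hJ0
  obtain ⟨lA, HA⟩ := hGA h h3 κ δ k0 k1 hδ
  obtain ⟨lB, HB⟩ := hGB h h3 κ δ k0 k1 hδ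
  obtain ⟨lF, HF⟩ := hGF h ho h3 κ δ J0 k0 k1 hδ
  set l0 := max lA (max lB lF) with hl0
  have hlA : lA ≤ l0 := le_max_left _ _
  have hlB : lB ≤ l0 := (le_max_left _ _).trans (le_max_right _ _)
  have hlF : lF ≤ l0 := (le_max_right _ _).trans (le_max_right _ _)
  refine ⟨J0, l0, fun L => ?_⟩
  have hw : ∀ x ∈ U h l0 L, 0 ≤ wt h κ x ∧ wt h κ x ≤ 1 := by
    intro x hx
    unfold U at hx
    rw [Finset.mem_biUnion] at hx
    obtain ⟨l, -, hxl⟩ := hx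
    obtain ⟨w1, w2, w3, -⟩ := hWTS h h3 κ k0 k1 l
    rw [w1 x hxl]
    exact ⟨w2.le, w3⟩
  set N : ℕ := h * h * Bs h ^ (L + 1) with hN
  set J2 : ℕ := max (J0 + 1) N with hJ2
  have hB : 2 ≤ Bs h := by
    have h1 : 2 ≤ C0 h := by
      unfold C0
      nlinarith
    have h2 : 2 ≤ be h := h1.trans (Nat.le_self_pow (by norm_num) _)
    exact h2.trans (Nat.le_self_pow (by omega) _)
  have hNB : N ≤ Bs h ^ J2 :=
    (Nat.lt_pow_self (by omega : 1 < Bs h)).le.trans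
      (Nat.pow_le_pow_right (by omega) (le_max_right _ _))
  -- the bad events
  obtain ⟨A, hAV, hA⟩ := hPRB (U h l0 L) (wt h κ) hw
    (ℕ ⊕ (((Σ j : ℕ, (Fin j → ℤ)) × ℤ) ⊕ (((Fin h → ℤ) × ℤ) ⊕ (((Fin h → ℤ) × ℕ) ⊕
      (((Σ j : ℕ, (Fin j → ℤ)) × ℕ) ⊕ ((Σ j : ℕ, (Fin j → ℤ)) ⊕ (Fin h → ℤ)))))))
    ((Finset.Icc l0 L).disjSum ((CC ×ˢ Finset.Icc (-(N : ℤ)) N).disjSum
      ((EE ×ˢ Finset.Icc (-(N : ℤ)) N).disjSum ((EE ×ˢ Finset.Ioc J0 J2).disjSum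
        ((CC ×ˢ Finset.Ioc J0 J2).disjSum (CC.disjSum EE))))))
    (Sum.elim (fun l A => ((A ∩ S h l).card : ℝ) < κ * (be h : ℝ) ^ l / 2)
      (Sum.elim (fun p A => ¬ NoDisj A p.1.2 p.2 (2 * h))
      (Sum.elim (fun p A => ¬ NoDisj A p.1 p.2 (K * (Nat.clog (Bs h) p.2.natAbs + 1)))
      (Sum.elim (fun p A => C * κ ^ h * (Bs h : ℝ) ^ p.2 ≤ ((RN p.1 0 (Bs h ^ p.2) A).card : ℝ))
      (Sum.elim (fun p A => κ ^ h * (Bs h : ℝ) ^ p.2 ≤ ((RN p.1.2 0 (Bs h ^ p.2) A).card : ℝ))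
      (Sum.elim (fun p A => (RN p.2 0 (Bs h ^ J0) A).Nonempty)
        (fun e A => (RN e 0 (Bs h ^ J0) A).Nonempty)))))))
    (by
      rw [Finset.sum_disjSum, Finset.sum_disjSum, Finset.sum_disjSum, Finset.sum_disjSum,
        Finset.sum_disjSum, Finset.sum_disjSum, Finset.sum_product, Finset.sum_product,
        Finset.sum_product, Finset.sum_product]
      simp only [Sum.elim_inl, Sum.elim_inr]
      have b1 := HA l0 L hlA
      have b2 := Finset.sum_le_card_nsmul CC _ δ fun p hp =>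
        HB l0 L hlB p.1 p.2 (CCmem p hp).1 (CCmem p hp).2.1 (CCmem p hp).2.2 N
      have b3 := Finset.sum_le_card_nsmul EE _ δ fun e he => HC κ k0 k1 l0 L e ((memEE e).1 he) N
      have b4 := Finset.sum_le_card_nsmul EE _ δ fun e he =>
        HD' J0 J2 l0 L (le_max_left _ _) e ((memEE e).1 he)
      have b5 := Finset.sum_le_card_nsmul CC _ δ fun p hp =>
        HE J0 J2 l0 L (le_max_right _ _) p.1 p.2 (CCmem p hp).1 (CCmem p hp).2.1 (CCmem p hp).2.2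
      have b6 := Finset.sum_le_card_nsmul CC _ δ fun p hp =>
        (HF l0 L hlF).1 p.1 p.2 (CCmem p hp).1 (CCmem p hp).2.1 (CCmem p hp).2.2
      have b7 := Finset.sum_le_card_nsmul EE _ δ fun e he => (HF l0 L hlF).2 e ((memEE e).1 he)
      simp only [nsmul_eq_mul] at b2 b3 b4 b5 b6 b7
      have hM1 : δ + 3 * (CC.card * δ) + 3 * (EE.card * δ) = 1 / 2 := by
        rw [← hMδ, hM]
        ring
      linarith)
  have a1 : ∀ l ∈ Finset.Icc l0 L, ¬ (((A ∩ S h l).card : ℝ) < κ * (be h : ℝ) ^ l / 2) :=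
    fun l hl => hA (Sum.inl l) (Finset.inl_mem_disjSum.2 hl)
  have a2 : ∀ p ∈ CC, ∀ n ∈ Finset.Icc (-(N : ℤ)) N, NoDisj A p.2 n (2 * h) := by
    intro p hp n hn
    have := hA (Sum.inr (Sum.inl (p, n))) (by
      rw [Finset.inr_mem_disjSum, Finset.inl_mem_disjSum]
      exact Finset.mk_mem_product hp hn)
    exact not_not.1 this
  have a3 : ∀ e ∈ EE, ∀ n ∈ Finset.Icc (-(N : ℤ)) N,
      NoDisj A e n (K * (Nat.clog (Bs h) n.natAbs + 1)) := by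
    intro e he n hn
    have := hA (Sum.inr (Sum.inr (Sum.inl (e, n)))) (by
      rw [Finset.inr_mem_disjSum, Finset.inr_mem_disjSum, Finset.inl_mem_disjSum]
      exact Finset.mk_mem_product he hn)
    exact not_not.1 this
  have a4 : ∀ e ∈ EE, ∀ J ∈ Finset.Ioc J0 J2,
      ¬ (C * κ ^ h * (Bs h : ℝ) ^ J ≤ ((RN e 0 (Bs h ^ J) A).card : ℝ)) := by
    intro e he J hJ
    exact hA (Sum.inr (Sum.inr (Sum.inr (Sum.inl (e, J))))) (by
      rw [Finset.inr_mem_disjSum, Finset.inr_mem_disjSum, Finset.inr_mem_disjSum,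
        Finset.inl_mem_disjSum]
      exact Finset.mk_mem_product he hJ)
  have a5 : ∀ p ∈ CC, ∀ J ∈ Finset.Ioc J0 J2,
      ¬ (κ ^ h * (Bs h : ℝ) ^ J ≤ ((RN p.2 0 (Bs h ^ J) A).card : ℝ)) := by
    intro p hp J hJ
    exact hA (Sum.inr (Sum.inr (Sum.inr (Sum.inr (Sum.inl (p, J)))))) (by
      rw [Finset.inr_mem_disjSum, Finset.inr_mem_disjSum, Finset.inr_mem_disjSum,
        Finset.inr_mem_disjSum, Finset.inl_mem_disjSum]
      exact Finset.mk_mem_product hp hJ)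
  have a6 : ∀ p ∈ CC, ¬ (RN p.2 0 (Bs h ^ J0) A).Nonempty := by
    intro p hp
    exact hA (Sum.inr (Sum.inr (Sum.inr (Sum.inr (Sum.inr (Sum.inl p)))))) (by
      rw [Finset.inr_mem_disjSum, Finset.inr_mem_disjSum, Finset.inr_mem_disjSum,
        Finset.inr_mem_disjSum, Finset.inr_mem_disjSum, Finset.inl_mem_disjSum]
      exact hp)
  have a7 : ∀ e ∈ EE, ¬ (RN e 0 (Bs h ^ J0) A).Nonempty := by
    intro e he
    exact hA (Sum.inr (Sum.inr (Sum.inr (Sum.inr (Sum.inr (Sum.inr e)))))) (by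
      rw [Finset.inr_mem_disjSum, Finset.inr_mem_disjSum, Finset.inr_mem_disjSum,
        Finset.inr_mem_disjSum, Finset.inr_mem_disjSum, Finset.inr_mem_disjSum]
      exact he)
  have hSg : ∀ e : Fin h → ℤ, Sg e → ∀ i, |e i| ≤ (h : ℤ) := by
    intro e he i
    rcases he i with h1 | h1 <;> rw [h1] <;> simp <;> omega
  have hBr : (1 : ℝ) ≤ (Bs h : ℝ) := by exact_mod_cast (by omega : 1 ≤ Bs h)
  have hbig : ∀ J, J0 < J → ∀ j (c : Fin j → ℤ), (∀ x ∈ Inj j A, |lf c x| ≤ (N : ℤ)) →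
      ∃ J' ∈ Finset.Ioc J0 J2, J' ≤ J ∧ RN c 0 (Bs h ^ J) A = RN c 0 (Bs h ^ J') A := by
    intro J hJ j c hb
    by_cases hJ2' : J ≤ J2
    · exact ⟨J, Finset.mem_Ioc.2 ⟨hJ, hJ2'⟩, le_rfl, rfl⟩
    · push Not at hJ2'
      refine ⟨J2, Finset.mem_Ioc.2 ⟨lt_of_lt_of_le (Nat.lt_succ_self J0) (le_max_left _ _), le_rfl⟩,
        hJ2'.le, ?_⟩
      exact GOO_RN hb (hNB.trans (Nat.pow_le_pow_right (by omega) hJ2'.le)) hNB
  refine ⟨A, hAV, ?_, ?_, ?_, ?_, ?_, ?_, ?_⟩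
  · intro l h1 h2
    exact not_lt.1 (a1 l (Finset.mem_Icc.2 ⟨h1, h2⟩))
  · intro j c h1 h2 hc n
    by_cases hn : n ∈ Finset.Icc (-(N : ℤ)) N
    · exact a2 ⟨j, c⟩ (memCC j c h1 h2 hc) n hn
    · exact GOO_noDisj (by omega) (fun x hx => GOO_lf hBAS h3 hAV h2.le (fun i => (hc i).2) hx) hn
  · intro e he n
    by_cases hn : n ∈ Finset.Icc (-(N : ℤ)) N
    · exact a3 e ((memEE e).2 he) n hn
    · exact GOO_noDisj (Nat.one_le_iff_ne_zero.2 (Nat.mul_ne_zero (by omega) (by omega)))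
        (fun x hx => GOO_lf hBAS h3 hAV le_rfl (hSg e he) hx) hn
  · intro e he J hJ
    obtain ⟨J', hJ', hle, heq⟩ := hbig J hJ h e
      (fun x hx => GOO_lf hBAS h3 hAV le_rfl (hSg e he) hx)
    rw [heq]
    have h1 := not_le.1 (a4 e ((memEE e).2 he) J' hJ')
    refine h1.le.trans ?_
    have h2 : (Bs h : ℝ) ^ J' ≤ (Bs h : ℝ) ^ J := pow_le_pow_right₀ hBr hle
    exact mul_le_mul_of_nonneg_left h2 (by positivity)
  · intro j c h1 h2 hc J hJ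
    obtain ⟨J', hJ', hle, heq⟩ := hbig J hJ j c
      (fun x hx => GOO_lf hBAS h3 hAV h2.le (fun i => (hc i).2) hx)
    rw [heq]
    have h4 := not_le.1 (a5 ⟨j, c⟩ (memCC j c h1 h2 hc) J' hJ')
    refine h4.le.trans ?_
    have h5 : (Bs h : ℝ) ^ J' ≤ (Bs h : ℝ) ^ J := pow_le_pow_right₀ hBr hle
    exact mul_le_mul_of_nonneg_left h5 (by positivity)
  · intro j c h1 h2 hc
    exact Finset.not_nonempty_iff_eq_empty.1 (a6 ⟨j, c⟩ (memCC j c h1 h2 hc))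
  · intro e he
    exact Finset.not_nonempty_iff_eq_empty.1 (a7 e ((memEE e).2 he))

end Pool.Agent.OB
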