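import Pool.Agent.helper38.OB.Spec

/-!
# MAT: removing the common entries
-/

namespace Pool.Agent.OB

open Finset

/-- the pairs of tuples with entries in `F` form a finite set -/
theorem MAT_finP (F : Finset ℕ) (k N : ℕ) : (Pk (F : Set ℕ) k N).Finite := by
  have h1 : (Set.pi Set.univ (fun _ : Fin k => (F : Set ℕ))).Finite :=
    Set.Finite.pi (fun _ => F.finite_toSet)
  refine (h1.prod h1).subset ?_
  rintro ⟨x, y⟩ ⟨hx, hy, -⟩
  exact ⟨fun i _ => hx i, fun i _ => hy i⟩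

theorem MAT_finQ (F : Finset ℕ) (k N : ℕ) : (Qj (F : Set ℕ) k N).Finite := by
  refine (MAT_finP F k N).subset ?_
  rintro ⟨x, y⟩ ⟨hx, hy, -, h⟩
  exact ⟨hx, hy, h⟩

theorem MAT_step (F : Finset ℕ) (k N : ℕ) :
    (Pk (F : Set ℕ) (k + 1) N).ncard ≤
      (Qj (F : Set ℕ) (k + 1) N).ncard + (k + 1) ^ 2 * F.card * (Pk (F : Set ℕ) k N).ncard := by
  classical
  set T : Set ((Fin (k + 1) × Fin (k + 1)) × ℕ × ((Fin k → ℕ) × (Fin k → ℕ))) :=
    (Set.univ : Set (Fin (k + 1) × Fin (k + 1))) ×ˢ ((F : Set ℕ) ×ˢ Pk (F : Set ℕ) k N) with hT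
  set f : (Fin (k + 1) × Fin (k + 1)) × ℕ × ((Fin k → ℕ) × (Fin k → ℕ)) →
      (Fin (k + 1) → ℕ) × (Fin (k + 1) → ℕ) := fun p =>
    (Fin.insertNth (α := fun _ => ℕ) p.1.1 p.2.1 p.2.2.1,
      Fin.insertNth (α := fun _ => ℕ) p.1.2 p.2.1 p.2.2.2) with hf
  have hTf : T.Finite := Set.finite_univ.prod (F.finite_toSet.prod (MAT_finP F k N))
  have hsub : Pk (F : Set ℕ) (k + 1) N ⊆ Qj (F : Set ℕ) (k + 1) N ∪ f '' T := by
    rintro ⟨x, y⟩ ⟨hx, hy, h⟩
    by_cases hd : ∀ i l, x i ≠ y l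
    · exact Or.inl ⟨hx, hy, hd, h⟩
    · push Not at hd
      obtain ⟨i, l, hil⟩ := hd
      refine Or.inr ⟨((i, l), x i, (i.removeNth x, l.removeNth y)), ?_, ?_⟩
      · refine ⟨trivial, hx i, fun a => hx _, fun a => hy _, ?_⟩
        have e1 : (∑ a, (x a : ℤ)) = x i + ∑ a, ((i.removeNth x a : ℕ) : ℤ) := by
          rw [Fin.sum_univ_succAbove _ i]
          rfl
        have e2 : (∑ a, (y a : ℤ)) = y l + ∑ a, ((l.removeNth y a : ℕ) : ℤ) := by
          rw [Fin.sum_univ_succAbove _ l]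
          rfl
        simp only at h ⊢
        rw [e1, e2, ← hil] at h
        have e3 : ((x i : ℤ) + ∑ a, ((i.removeNth x a : ℕ) : ℤ)) -
            ((x i : ℤ) + ∑ a, ((l.removeNth y a : ℕ) : ℤ)) =
            (∑ a, ((i.removeNth x a : ℕ) : ℤ)) - ∑ a, ((l.removeNth y a : ℕ) : ℤ) := by ring
        rw [e3] at h
        exact h
      · simp only [hf]
        refine Prod.ext ?_ ?_
        · exact Fin.insertNth_self_removeNth i x
        · simp only
          rw [hil]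
          exact Fin.insertNth_self_removeNth l y
  have h1 := Set.ncard_le_ncard hsub ((MAT_finQ F (k + 1) N).union (hTf.image f))
  have h2 := Set.ncard_union_le (Qj (F : Set ℕ) (k + 1) N) (f '' T)
  have h3 : (f '' T).ncard ≤ T.ncard := Set.ncard_image_le hTf
  have h4 : T.ncard = (k + 1) ^ 2 * F.card * (Pk (F : Set ℕ) k N).ncard := by
    rw [hT, Set.ncard_prod, Set.ncard_prod, Set.ncard_univ, Set.ncard_coe_finset]
    simp [Nat.card_eq_fintype_card]
    ring
  omega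

theorem MAT : MAT_stmt := by
  intro k
  induction k with
  | zero =>
    refine ⟨1, fun F N => ?_⟩
    simp only [zero_add, Finset.sum_range_one, Nat.sub_self, pow_zero, one_mul]
    refine Set.ncard_le_ncard ?_ (MAT_finQ F 0 N)
    rintro ⟨x, y⟩ ⟨hx, hy, h⟩
    exact ⟨hx, hy, fun i => i.elim0, h⟩
  | succ k ih =>
    obtain ⟨C, hC⟩ := ih
    refine ⟨1 + (k + 1) ^ 2 * C, fun F N => ?_⟩
    have h1 := MAT_step F k N
    have h2 := hC F N
    have e1 : ∑ j ∈ Finset.range (k + 1 + 1), F.card ^ (k + 1 - j) * (Qj (F : Set ℕ) j N).ncard =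
        F.card * (∑ j ∈ Finset.range (k + 1), F.card ^ (k - j) * (Qj (F : Set ℕ) j N).ncard) +
          (Qj (F : Set ℕ) (k + 1) N).ncard := by
      rw [Finset.sum_range_succ, Nat.sub_self, pow_zero, one_mul, Finset.mul_sum]
      congr 1
      refine Finset.sum_congr rfl fun j hj => ?_
      have hj' : j ≤ k := by
        have := Finset.mem_range.1 hj
        omega
      rw [Nat.succ_sub hj', pow_succ]
      ring
    set W0 := ∑ j ∈ Finset.range (k + 1), F.card ^ (k - j) * (Qj (F : Set ℕ) j N).ncard with hW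
    rw [e1]
    have h3 : (k + 1) ^ 2 * F.card * (Pk (F : Set ℕ) k N).ncard ≤ (k + 1) ^ 2 * F.card * (C * W0) :=
      Nat.mul_le_mul_left _ h2
    nlinarith [Nat.zero_le (F.card * W0), Nat.zero_le ((k + 1) ^ 2 * C * (Qj (F : Set ℕ) (k + 1) N).ncard)]

end Pool.Agent.OB
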